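import Pool.Agent.K1H39.NearHad.Out

/-!
# Flat orthogonal matrices in every order: the exponent of the deviation

A real Hadamard matrix is a matrix `Q` with `Q Qᵀ = n I` all of whose entries have absolute value
one.  In every large order `n` there is a real matrix `Q` with `Q Qᵀ = n I` whose entries have absolute
values within `(log n) ^ 2 / √n` of one; and in no order `n ≥ 3` which is not divisible by four can
the deviation be at most `1 / (4 √n)`.

Let `r` be small such that there is a Hadamard matrix `H` of order `N = n - r` (from the `log*` theorem of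
the starting files), and let `X`, `Y` be made of `r` columns of `H` multiplied by random signs.  An
explicit rotation which takes the columns of `H X / N` to those of `Y / √N` gives an orthogonal matrix
with corner close to `H` and borders close to `Y` and `Xᵀ`.
-/

namespace Pool.Agent.Results.MP_d8b1b3_co.FlatOrthogonal

open Matrix

theorem result :
    (∃ n₀ : ℕ, ∀ n : ℕ, n₀ ≤ n → ∃ Q : Matrix (Fin n) (Fin n) ℝ,
      Q * Qᵀ = (n : ℝ) • (1 : Matrix (Fin n) (Fin n) ℝ) ∧
        ∀ i j, |(|Q i j| - 1)| ≤ Real.log n ^ 2 / Real.sqrt n) ∧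
    (∀ n : ℕ, 3 ≤ n → ¬ 4 ∣ n → ∀ Q : Matrix (Fin n) (Fin n) ℝ,
      Q * Qᵀ = (n : ℝ) • (1 : Matrix (Fin n) (Fin n) ℝ) →
        ∃ i j, 1 / (4 * Real.sqrt n) < |(|Q i j| - 1)|) :=
  ⟨Pool.Agent.K1H39.NearHad.flat, fun _ hn h4 Q hQ => Pool.Agent.K1H39.NearHad.sharp hn h4 Q hQ⟩

end Pool.Agent.Results.MP_d8b1b3_co.FlatOrthogonal
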