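import Pool.Agent.K1H39.NearHad.Out

/-!
# Sign matrices of every large order that are nearly Hadamard matrices

In every large order `n` there is an `n × n` matrix with entries `±1` which multiplies the length of
every vector by a number within `n ^ (1 / 4) (log n) ^ 3` of `√n`, so that its condition number is
`1 + O (n ^ (- 1 / 4) (log n) ^ 3)`, and whose distinct rows have inner products at most
`n ^ (1 / 4) (log n) ^ 3` in absolute value.

The matrix is a random rounding of a flat orthogonal matrix obtained by bordering a Hadamard matrix of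
slightly smaller order (from the `log*` theorem of the starting files); the norm of the rounding error
is bounded by its moments of order about `log n`.
-/

namespace Pool.Agent.Results.MP_d8b1b3_co.NearlyIsometric

theorem result : ∃ n₀ : ℕ, ∀ n : ℕ, n₀ ≤ n →
    ∃ A : Matrix (Fin n) (Fin n) ℝ, (∀ i j, A i j = 1 ∨ A i j = -1) ∧
      (∀ x : Fin n → ℝ, |Real.sqrt (∑ j, (∑ i, x i * A i j) ^ 2) -
        Real.sqrt n * Real.sqrt (∑ i, x i ^ 2)| ≤
          (n : ℝ) ^ (1 / 4 : ℝ) * Real.log n ^ 3 * Real.sqrt (∑ i, x i ^ 2)) ∧
      ∀ i k, i ≠ k → |∑ j, A i j * A k j| ≤ (n : ℝ) ^ (1 / 4 : ℝ) * Real.log n ^ 3 :=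
  Pool.Agent.K1H39.NearHad.near

end Pool.Agent.Results.MP_d8b1b3_co.NearlyIsometric
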