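import Pool.Agent.K1H39.Fam.Main

/-!
# Hadamard matrices of order `4 (q + 1 + e)` for Paley orders `e`

Let `e > 1` be a Paley order, that is `e = 2 ^ k * (q' + 1)` with `q' = 1` or `q'` an odd prime power,
and `e = 2` or `4 ∣ e`. There is a constant `C` (the same for all `e`) such that for all natural
numbers `N`, `t` and all prime powers `q` with `q ≤ 2 ↑↑ N` (the power tower of `N` twos, `1` for
`N = 0`), `t ≥ 2 ^ C ^ (N + 1)` and `q + 1 ≡ -2 e (mod 2 ^ t * (2 e))` there is a Hadamard matrix of
order `4 (q + 1 + e)`.

Write `q + 1 = 2 e g`, so that the order is `4 e (2 g + 1)`. The dicyclic group `G` of order `2 e` lies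
in `SL (2, q)` and acts on the Paley conference matrix `C` of order `q + 1` by signed permutations,
with `2 g` free orbits modulo the centre. The Paley orders are those `e` for which we find a sign
function on `G`, odd with respect to the central involution, with perfect autocorrelation (Ito's
description of the Paley matrices); it gives a matrix `M = M₁ ⊕ ... ⊕ M₂g` which commutes with `C`,
whose blocks `Mᵢ` are Hadamard matrices of order `e`. From `C`, `M`, a skew core `W` of order `g`
(which exists by the asymptotic existence theorem for skew-Hadamard matrices of the starting files, as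
`g + 1` is divisible by a large power of two), and a Hadamard matrix of order `e`, the matrix is built
by blocks with a border of width `4 e`. The case `e = 1` (not covered here) is a theorem of Yamada.
-/

namespace Pool.Agent.Results.MP_d8b1b3_co.PaleyOrderShifts

theorem result : ∃ C : ℕ, ∀ N q q' k e t : ℕ, IsPrimePow q →
    (q' = 1 ∨ (IsPrimePow q' ∧ Odd q')) → e = 2 ^ k * (q' + 1) → (e = 2 ∨ 4 ∣ e) →
    q ≤ (fun x : ℕ => 2 ^ x)^[N] 1 → 2 ^ C ^ (N + 1) ≤ t → 2 ^ t * (2 * e) ∣ q + 1 + 2 * e →
    ∃ H : Matrix (Fin (4 * (q + 1 + e))) (Fin (4 * (q + 1 + e))) ℤ,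
      (∀ i j, H i j = 1 ∨ H i j = -1) ∧
      H * H.transpose = ((4 * (q + 1 + e) : ℕ) : ℤ) •
        (1 : Matrix (Fin (4 * (q + 1 + e))) (Fin (4 * (q + 1 + e))) ℤ) := by
  obtain ⟨C, -, h⟩ := Pool.Agent.K1H39.Fam.main_fam
  exact ⟨C, fun N q q' k e t hq hq' he h4 hqN ht hd => h N q q' k e t hq hq' he h4 hqN ht hd⟩

end Pool.Agent.Results.MP_d8b1b3_co.PaleyOrderShifts
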