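import Pool.Agent.K1H34.Had2.All

/-!
# Partial Hadamard matrices with all but `n ^ (6/7) (log n) ^ 2` rows

For every large `n` divisible by `4` there are at least `n - n ^ (6/7) (log n) ^ 2` pairwise orthogonal
vectors of length `n` with entries `1` and `-1`.

One step: an orthogonal design of order `M` with four large or prescribed weights, a symmetric core of
order `v` and a partial Hadamard matrix with `r` rows and `m` columns give one with `v r` rows and
`v M + m` columns. Two steps, starting from a Paley matrix of order `h`, `h` being `n` modulo a tiny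
power of two, with `v = a ^ 2` (a symmetric core of this order exists for all `a` which are `-1` modulo a
tiny power of two) and `v = b ^ 2` with `b` prime; the second core removes all other congruence
conditions, and `a` is chosen such that the product of the sizes is close to `n`.
-/

set_option autoImplicit false

namespace Pool.Agent.Results.MP_d8b1b3_co.PowerSaving

/-- For every large `n` divisible by `4` there are at least `n - n ^ (6/7) (log n) ^ 2` pairwise
orthogonal vectors of length `n` with entries `1` and `-1`. -/
theorem result : ∃ n₀ : ℕ, ∀ n : ℕ, n₀ ≤ n → 4 ∣ n →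
    ∃ (r : ℕ) (H : Matrix (Fin r) (Fin n) ℤ),
      (n : ℝ) - (n : ℝ) ^ (6 / 7 : ℝ) * Real.log n ^ 2 ≤ r ∧
      (∀ i j, H i j = 1 ∨ H i j = -1) ∧
      H * H.transpose = (n : ℤ) • (1 : Matrix (Fin r) (Fin r) ℤ) := by
  obtain ⟨n₀, h⟩ := Pool.Agent.K1H34.Had2.goal2
  refine ⟨n₀, fun n hn h4 => ?_⟩
  obtain ⟨r, hr, H, h1, h2⟩ := h n hn h4
  exact ⟨r, H, hr, h1, h2⟩

end Pool.Agent.Results.MP_d8b1b3_co.PowerSaving
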